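import Pool.Agent.BoltzM.Spec.Energy
import Pool.Agent.BoltzM.Stmt

/-!
Shared definitions of the Boltzmann project, part 2: profile, cut-off background, weights, and the
statements of the modules M1, MC, M3, M5, M6.
-/

set_option autoImplicit false

open MeasureTheory Pool.Agent.BoltzM.BoltzC Finset
open scoped ContDiff

noncomputable section

namespace Pool.Agent.BoltzM

variable [Dim]

/-- The closed box of half side `a`. -/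
def box (a : ℝ) (x : E3) : Prop := ∀ i, |x i| ≤ a

/-- Periodic cut-off data: `pi` is the identity near the origin, `chi` a cut-off, `rho2` the squared
distance to the lattice near the lattice. -/
structure Cut where
  pi : E3 → E3
  chi : E3 → ℝ
  rho2 : E3 → ℝ
  cd_pi : ContDiff ℝ ∞ pi
  cd_chi : ContDiff ℝ ∞ chi
  cd_rho2 : ContDiff ℝ ∞ rho2
  per_pi : Per pi
  per_chi : Per chi
  per_rho2 : Per rho2
  pi_eq : ∀ x, box (1 / 4) x → pi x = x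
  rho2_eq : ∀ x, box (1 / 4) x → rho2 x = ‖x‖ ^ 2
  chi_one : ∀ x, box (1 / 8) x → chi x = 1
  chi_zero : ∀ x, box (1 / 2) x → ¬box (1 / 5) x → chi x = 0
  chi_nonneg : ∀ x, 0 ≤ chi x
  chi_le : ∀ x, chi x ≤ 1
  rho2_ge : ∀ x, box (1 / 2) x → ‖x‖ ^ 2 / 12 ≤ rho2 x
  rho2_le : ∀ x, rho2 x ≤ dd

/-- Time derivative of a scalar field. -/
def dS (a : ℝ → E3 → ℝ) (s : ℝ) (x : E3) : ℝ := deriv (fun t => a t x) s

/-- Background: the physical velocity `u` and thermal speed `C` as functions of `(s, x)`,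
where `dt/ds = exp (-r s)`. -/
structure BgD where
  r : ℝ
  nu : ℝ
  cut : Cut
  u : Ix → ℝ → E3 → ℝ
  C : ℝ → E3 → ℝ
  F : E3 → ℝ
  F_nonneg : ∀ y, 0 ≤ F y
  cd_F : ContDiff ℝ ∞ F

namespace BgD

variable (B : BgD)

/-- Growth rate of the collision frequency. -/
def kap : ℝ := (dd + 199 / 100) * (B.r - 1) - B.r

/-- Exponent of the second weight. -/
def eta : ℝ := (B.kap + B.r) / 2

/-- The length scale. -/
def Lam (s : ℝ) (x : E3) : ℝ := √(Real.exp (-2 * s) + B.cut.rho2 x)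

/-- The rate. -/
def mu (s : ℝ) (x : E3) : ℝ := Real.exp (-B.r * s) * B.Lam s x ^ (-B.r)

/-- The weights of the two energies (`a = 0` and `a = eta`). -/
def om (a s : ℝ) (x : E3) : ℝ := Real.exp (-2 * a * s) * B.Lam s x ^ (-(dd : ℝ) - 2 * a)

/-- The length scale attached to a derivative, without the extra weight. -/
def sig0 (s : ℝ) (x : E3) : ℝ :=
  Real.exp (-s) + √(Real.exp (-2 * s) + B.nu ^ 2 * B.cut.rho2 x)

/-- The extra weight. -/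
def ph (s : ℝ) (x : E3) : ℝ := 1 + B.cut.chi x * B.F (Real.exp s • B.cut.pi x)

/-- The length scale attached to a derivative. -/
def sig (s : ℝ) (x : E3) : ℝ := B.sig0 s x * B.ph s x

/-- The collision frequency divided by the amplitude `A`. -/
def k1 (s : ℝ) (x : E3) : ℝ := Real.exp (-B.r * s) * B.C s x ^ ((dd : ℝ) + 199 / 100)

/-- The weights of the energies of the fast part. -/
def omH (a s : ℝ) (x : E3) : ℝ := B.om a s x * (B.k1 s x / B.mu s x)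

/-- Material derivative. -/
def mat (a : ℝ → E3 → ℝ) (s : ℝ) (x : E3) : ℝ :=
  dS a s x + ∑ i, Real.exp (-B.r * s) * B.u i s x * dX i (a s) x

/-- The coefficients of the transport operator. -/
def fld (s : ℝ) : Fld where
  u i x := Real.exp (-B.r * s) * B.u i s x
  c x := Real.exp (-B.r * s) * B.C s x
  b0 j x := -B.mat (B.u j) s x / B.C s x
  b1 i j x := -(Real.exp (-B.r * s) * dX i (B.u j s) x)
    - if i = j then B.mat B.C s x / B.C s x else 0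
  b2 i x := -(Real.exp (-B.r * s) * dX i (B.C s) x)

/-- Rescaled and periodised copy of a function of `y`. -/
def per (φ : E3 → SV) (s : ℝ) (x : E3) : SV := B.cut.chi x • φ (Real.exp s • B.cut.pi x)

/-- The energy with weight `om a`. -/
def E (n : ℕ) (θ a s : ℝ) (G H : E3 → SV) : ℝ := En n θ (B.om a s) (B.sig s) G H

/-- Everything that the other modules may use about the background. -/
structure Ok : Prop where
  r_gt : 1 < B.r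
  kap_gt : 1 < (dd + 99 / 100) * (B.r - 1)
  r_lt : B.r < 3 / 2
  nu_pos : 0 < B.nu
  nu_le : B.nu ≤ 1
  cd_u : ∀ i, ContDiff ℝ ∞ fun p : ℝ × E3 => B.u i p.1 p.2
  cd_C : ContDiff ℝ ∞ fun p : ℝ × E3 => B.C p.1 p.2
  per_u : ∀ i s, Per (B.u i s)
  per_C : ∀ s, Per (B.C s)
  C_pos : ∀ s x, 0 < B.C s x
  sm_u : ∀ i, SmD (B.u i) (dS (B.u i))
  sm_C : SmD B.C (dS B.C)
  F_le : ∃ S : ℝ, ∀ y, B.F y ≤ S
  sm_om : ∀ a, SmD (B.om a) (dS (B.om a))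
  sm_omH : ∀ a, SmD (B.omH a) (dS (B.omH a))
  sm_sig : SmD B.sig (dS B.sig)
  sm_mu : SmC B.mu
  sm_k1 : SmC B.k1
  fldC : FldC B.fld
  C_ge : ∃ c0 : ℝ, 0 < c0 ∧ ∀ s, 0 ≤ s → ∀ x, c0 * B.Lam s x ^ (1 - B.r) ≤ B.C s x
  sym : ∃ K : ℕ → ℝ, ∀ s, 0 ≤ s →
    (∀ i, SymBd K 0 (B.sig s) (fun x => B.Lam s x ^ (1 - B.r)) (B.u i s)) ∧
    SymBd K 0 (B.sig s) (fun x => B.Lam s x ^ (1 - B.r)) (B.C s) ∧
    (∀ i, SymBd K 0 (B.sig s) (fun x => B.mu s x * B.Lam s x ^ (1 - B.r)) (dS (B.u i) s)) ∧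
    SymBd K 0 (B.sig s) (fun x => B.mu s x * B.Lam s x ^ (1 - B.r)) (dS B.C s)
  hyp : ∃ (K : ℕ → ℝ) (lam s1 : ℝ), 0 < lam ∧ 0 ≤ s1 ∧ ∀ s, s1 ≤ s →
    (B.fld s).Bd K (B.sig s) (B.mu s) ∧ SymBd K 0 (B.sig s) (B.k1 s) (B.k1 s) ∧
    (∀ a, 0 ≤ a → a ≤ B.eta → WtBd (B.fld s) K lam (B.om a s) (B.sig s) (B.mu s)
      (dS (B.om a) s) (dS B.sig s) fun x => 2 * a * B.om a s x) ∧
    SymBd K 0 (B.sig s) (B.mu s) (B.mu s) ∧
    ∀ a, 0 ≤ a → a ≤ B.eta → WtBd (B.fld s) K lam (B.omH a s) (B.sig s) (B.mu s)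
      (dS (B.omH a) s) (dS B.sig s) fun x => 2 * a * B.omH a s x
  euler_u : ∀ j s x, box (1 / 10) x →
    B.mat (B.u j) s x + (dd + 2) * (Real.exp (-B.r * s) * B.C s x) * dX j (B.C s) x = 0
  euler_C : ∀ s x, box (1 / 10) x →
    B.mat B.C s x + (dd : ℝ)⁻¹ * B.C s x * ∑ i, Real.exp (-B.r * s) * dX i (B.u i s) x = 0
  scal : ∃ (U : Ix → E3 → ℝ) (C : E3 → ℝ), (∀ i, ContDiff ℝ ∞ (U i)) ∧ ContDiff ℝ ∞ C ∧
    ∀ s x, box (1 / 8) x → (∀ i, B.u i s x = Real.exp ((B.r - 1) * s) * U i (Real.exp s • x)) ∧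
      B.C s x = Real.exp ((B.r - 1) * s) * C (Real.exp s • x)

variable {B}

lemma Ok.kap_pos (h : B.Ok) : 0 < B.kap := by
  have := h.kap_gt
  unfold kap
  linarith

lemma Ok.one_lt_r (h : B.Ok) : 1 < B.r := h.r_gt

lemma Ok.eta_pos (h : B.Ok) : 0 < B.eta := by
  have := h.kap_pos
  have := h.one_lt_r
  unfold eta
  linarith

lemma two_eta (B : BgD) : 2 * B.eta = B.kap + B.r := by unfold eta; ring

lemma one_le_ph (B : BgD) (s : ℝ) (x : E3) : 1 ≤ B.ph s x :=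
  le_add_of_nonneg_right (mul_nonneg (B.cut.chi_nonneg x) (B.F_nonneg _))

lemma sig0_pos (B : BgD) (s : ℝ) (x : E3) : 0 < B.sig0 s x :=
  add_pos_of_pos_of_nonneg (Real.exp_pos _) (Real.sqrt_nonneg _)

lemma sig0_le_sig (B : BgD) (s : ℝ) (x : E3) : B.sig0 s x ≤ B.sig s x :=
  le_mul_of_one_le_right (B.sig0_pos s x).le (B.one_le_ph s x)

lemma Ok.ph_le (h : B.Ok) : ∃ S : ℝ, 1 ≤ S ∧ ∀ s x, B.ph s x ≤ S := by
  obtain ⟨S, hS⟩ := h.F_le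
  have h0 := (B.F_nonneg 0).trans (hS 0)
  refine ⟨1 + S, by linarith, fun s x => ?_⟩
  have := mul_le_mul (B.cut.chi_le x) (hS (Real.exp s • B.cut.pi x)) (B.F_nonneg _) zero_le_one
  unfold ph
  linarith

end BgD

/-- MC1: the background exists. -/
def BgStmt : Prop := M1M → ∃ B : BgD, B.Ok

/-- MC2: corrector `gc` and remaining error `R`. -/
def CorrStmt : Prop :=
  ∀ (B : BgD), B.Ok → ∀ Q : CollOp, ∃ gc gc' R : ℝ → E3 → SV, SmD gc gc' ∧ SmC R ∧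
    (∀ s, Per (gc s)) ∧ (∀ s, Per (gc' s)) ∧ (∀ s, Per (R s)) ∧
    (∀ s x, (B.fld s).src x = B.k1 s x • Q.L (gc s x) + R s x) ∧
    ∀ n δ, 0 < δ → δ ≤ B.kap → δ < B.eta → ∃ C : ℝ, 0 < C ∧ ∀ s, 0 ≤ s →
      B.E n 1 0 s (gc s) (gc s) ≤ C ∧
      B.E n 1 B.eta s (gc s) (gc s) ≤ C * Real.exp (-2 * δ * s) ∧
        B.E n 1 0 s (fun x => gc' s x + (B.fld s).tr (gc s) x)
          (fun x => gc' s x + (B.fld s).tr (gc s) x) ≤ C * Real.exp (-2 * min (B.kap / 2) B.r * s) ∧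
        B.E n 1 B.eta s (fun x => gc' s x + (B.fld s).tr (gc s) x)
          (fun x => gc' s x + (B.fld s).tr (gc s) x) ≤ C * Real.exp (-2 * δ * s) ∧
      ∀ a, a = 0 ∨ a = B.eta →
        B.E n 1 a s (R s) (R s) ≤ C * Real.exp (-2 * (B.r + a) * s)

/-- Compactly supported smooth hydrodynamic functions of `y`. -/
def InD (φ : E3 → SV) : Prop := Sm φ ∧ HasCompactSupport φ ∧ ∀ y, PP (φ y) = φ y

/-- MK: the finite rank damping. -/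
def KStmt : Prop :=
  ∀ (B : BgD), B.Ok → ∀ (n : ℕ) (θ C1 ε : ℝ), dd + 1 ≤ n → 0 < θ → θ ≤ 1 → 0 < ε →
    ∃ (m : ℕ) (φ : Fin m → E3 → SV) (C0 C s1 : ℝ), 0 < C0 ∧ 0 < C ∧ (∀ i, InD (φ i)) ∧
      ∀ s, s1 ≤ s → (∀ i, B.E n θ B.eta s (B.per (φ i) s) (B.per (φ i) s) ≤ C) ∧
        ∀ G : E3 → SV, Sm G → Per G →
          (∀ i, B.E n θ 0 s (B.per (φ i) s) G ^ 2 ≤ C * B.E n θ B.eta s G G) ∧
          C1 * tint (fun x => B.mu s x * B.om B.eta s x * ip (PP (G x)) (PP (G x)))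
            ≤ ε * B.E n θ B.eta s G G + C0 * ∑ i, B.E n θ B.eta s (B.per (φ i) s) G ^ 2

/-- M3, kinetic solver with the finite rank term written with the energy form. -/
def M3kStmt : Prop :=
  ∀ (Q : CollOp) (F : ℝ → Fld) (k ν wt σ : ℝ → E3 → ℝ) (n m : ℕ) (θ C0 s0 : ℝ)
    (φ : Fin m → ℝ → E3 → SV) (S : ℝ → E3 → SV) (g0 : E3 → SV),
    FldC F → SmC k → (∀ s, Per (k s)) → (∀ s x, 0 < k s x) →
    SmC ν → (∀ s, Per (ν s)) → (∀ s x, 0 < ν s x) → SmC wt → (∀ s, Per (wt s)) →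
    SmC σ → (∀ s, Per (σ s)) → (∀ i, SmC (φ i)) → (∀ i s, Per (φ i s)) →
    SmC S → (∀ s, Per (S s)) → Sm g0 → Per g0 →
    ∃ g g' : ℝ → E3 → SV, SmD g g' ∧ (∀ s, Per (g s)) ∧ (∀ s, Per (g' s)) ∧ g s0 = g0 ∧
      ∀ s, s0 ≤ s → ∀ x, g' s x + (F s).tr (g s) x + k s x • Q.L (g s x) + ν s x • Ds (g s x)
        + ∑ i, (C0 * En n θ (wt s) (σ s) (φ i s) (g s)) • φ i s x = S s x

/-- M3, hydrodynamic solver. -/
def M3hStmt : Prop :=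
  ∀ (F : ℝ → Fld) (s0 : ℝ) (S : ℝ → E3 → SV) (W0 : E3 → SV),
    FldC F → SmC S → (∀ s, Per (S s)) → (∀ s x, PP (S s x) = S s x) →
    Sm W0 → Per W0 → (∀ x, PP (W0 x) = W0 x) →
    ∃ W W' : ℝ → E3 → SV, SmD W W' ∧ (∀ s, Per (W s)) ∧ (∀ s, Per (W' s)) ∧
      (∀ s x, PP (W s x) = W s x) ∧ W s0 = W0 ∧
      ∀ s, s0 ≤ s → ∀ x, W' s x + PP ((F s).tr (W s) x) = S s x

/-- M5: choice of the finitely many free parameters for the linearised Euler system. -/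
def M5Stmt : Prop :=
  ∀ (B : BgD), B.Ok → ∃ n0 : ℕ, ∀ n, n0 ≤ n → ∀ θ : ℝ, 0 < θ → θ ≤ 1 →
    ∀ (m : ℕ) (φ : Fin m → E3 → SV), (∀ i, InD (φ i)) → ∀ δ1 : ℝ, 0 < δ1 → δ1 < B.eta →
    ∃ δ0, δ0 < δ1 ∧ ∀ δ, δ0 < δ → δ < δ1 →
      ∃ (m' : ℕ) (ψ : Fin m' → E3 → SV) (C s2 : ℝ), 0 < C ∧ (∀ i, InD (ψ i)) ∧ ∀ s0, s2 ≤ s0 →
        ∃ aa : C(ℝ, Fin m → ℝ) →ₗ[ℝ] (Fin m' → ℝ), ∀ (c : C(ℝ, Fin m → ℝ)) (M : ℝ), 0 ≤ M →
          (∀ s, s0 ≤ s → ∀ i, |c s i| ≤ M * Real.exp (-δ * s)) → (∀ i, |aa c i| ≤ C * M) ∧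
          ∀ W W' : ℝ → E3 → SV, SmD W W' → (∀ s, Per (W s)) → (∀ s x, PP (W s x) = W s x) →
            (∀ x, W s0 x = ∑ i, aa c i • B.per (ψ i) s0 x) →
            (∀ s, s0 ≤ s → ∀ x,
              W' s x + PP ((B.fld s).tr (W s) x) = ∑ i, c s i • B.per (φ i) s x) →
            ∀ s, s0 ≤ s → B.E n θ B.eta s (W s) (W s) ≤ C * M ^ 2 * Real.exp (-2 * δ * s) ∧
              B.E n θ 0 s (W s) (W s) ≤ C * M ^ 2

/-- Velocity cut-off of the collision invariants. -/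
def VCutStmt : Prop :=
  ∀ (n : ℕ) (ε : ℝ), 0 < ε → ∃ (et : Hx → SV) (C : ℝ), 0 < C ∧
    (∀ a, nA n (eH a - et a) ≤ ε) ∧ ∀ a V, |et a V| ≤ C * sqM V

/-- The polynomial `b_j(V)`. -/
def Fld.bj (F : Fld) (x V : E3) (j : Ix) : ℝ :=
  F.b0 j x + ∑ i, F.b1 i j x * V i + ∑ i, F.b2 i x * V i * V j

/-- A classical solution `sqM ^ 2 + f` of the rescaled equation on `[s0, ∞)`. -/
structure Lim (F : ℝ → Fld) (k : ℝ → E3 → ℝ) (s0 ε : ℝ) (p : ℕ) (f : ℝ → E3 → E3 → ℝ) : Prop where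
  c1 : ContDiff ℝ 1 fun q : ℝ × E3 × E3 => f q.1 q.2.1 q.2.2
  per : ∀ s V, Per fun x => f s x V
  nice : ∀ s, s0 ≤ s → ∀ x, Coll.Nice p ε (f s x)
  dec : ∀ s1, ∃ K, ∀ s ∈ Set.Icc s0 s1, ∀ x V : E3, (1 + ‖V‖) ^ p *
    ‖fderiv ℝ (fun q : ℝ × E3 × E3 => f q.1 q.2.1 q.2.2) (s, x, V)‖ ≤ K
  eqn : ∀ s, s0 ≤ s → ∀ x V : E3,
    deriv (fun t => f t x V) s
      + ∑ i, ((F s).u i x + (F s).c x * V i) * fderiv ℝ (fun y => f s y V) x (ev i)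
      + ∑ j, (F s).bj x V j * fderiv ℝ (fun W => sqM W ^ 2 + f s x W) V (ev j)
      = k s x * Coll.Tri (fun _ => 1) (fun W => sqM W ^ 2 + f s x W)
          (fun W => sqM W ^ 2 + f s x W) V
  init_smooth : ContDiff ℝ ∞ fun q : E3 × E3 => f s0 q.1 q.2
  init_small : ∀ x V, |f s0 x V| ≤ 1 / 2 * sqM V ^ 2

/-- M6c: the fixed point. -/
def PicardStmt : Prop :=
  ∀ (B : BgD), B.Ok → ∀ (p : ℕ) (ε : ℝ), 0 < ε → ∃ (A s0 : ℝ) (f : ℝ → E3 → E3 → ℝ),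
    0 < A ∧ 0 ≤ s0 ∧ Lim B.fld (fun s x => A * B.k1 s x) s0 ε p f

/-- Pointwise bound of the collision operator for functions with polynomial decay, and the two
forms of the operator. -/
def TriStmt : Prop :=
  ∃ P : ℕ, (∀ p : ℕ, ∃ C : ℝ, 0 < C ∧ ∀ (g h : E3 → ℝ) (Kg Kh : ℝ), Coll.Nice (p + P) Kg g →
      Coll.Nice (p + P) Kh h → ∀ v, Integrable (Coll.triI (fun _ => 1) g h v) Coll.mu2 ∧
        (1 + ‖v‖) ^ p * |Coll.Tri (fun _ => 1) g h v| ≤ C * Kg * Kh) ∧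
    ∀ (g : E3 → ℝ) (K : ℝ), Coll.Nice P K g → ∀ v,
      Integrable (Stmt.collInt (Stmt.Bk dd) g v) (Stmt.collMeas dd) ∧
        Stmt.Q (Stmt.Bk dd) g v = Coll.Tri (fun _ => 1) g g v

/-- A solution of the physical equation for which neither the sign nor the decay of all orders is
known. -/
structure PreSol (p : ℕ) (T : ℝ) (f : ℝ → E3 → E3 → ℝ) : Prop where
  c1 : ContDiffOn ℝ 1 (fun q : ℝ × E3 × E3 => f q.1 q.2.1 q.2.2) (Set.Ico 0 T ×ˢ Set.univ)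
  periodic : ∀ t ∈ Set.Ico 0 T, ∀ n x, f t (x + Stmt.lat n) = f t x
  integrable : ∀ t ∈ Set.Ico 0 T, ∀ x v,
    Integrable (Stmt.collInt (Stmt.Bk dd) (f t x) v) (Stmt.collMeas dd)
  eqn : ∀ t ∈ Set.Ico 0 T, ∀ x v, derivWithin (fun τ => f τ x v) (Set.Ico 0 T) t
    + fderiv ℝ (fun y => f t y v) x v = Stmt.Q (Stmt.Bk dd) (f t x) v
  nice : ∀ T' < T, ∃ K, ∀ t ∈ Set.Icc 0 T', (∀ x, Coll.Nice p K (f t x)) ∧
    ∀ x y v, |f t x v - f t y v| ≤ K * ‖x - y‖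

/-- L1: sign, decay of all orders and uniqueness. -/
def L1Stmt : Prop :=
  ∃ p : ℕ, ∀ (T : ℝ) (f : ℝ → E3 → E3 → ℝ), PreSol p T f → Stmt.Admissible (f 0) →
    Stmt.ClassicalSol (Stmt.Bk dd) T f ∧ Stmt.Unique (Stmt.Bk dd) T f

/-- M6a: back to the physical variables. -/
def FinalStmt : Prop :=
  ∀ p : ℕ, ∃ (ε1 : ℝ) (p' : ℕ), 0 < ε1 ∧ ∀ (B : BgD), B.Ok →
    ∀ (A s0 : ℝ) (f : ℝ → E3 → E3 → ℝ), 0 < A → 0 ≤ s0 →
    Lim B.fld (fun s x => A * B.k1 s x) s0 ε1 p' f → ∃ (T : ℝ) (g : ℝ → E3 → E3 → ℝ), 0 < T ∧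
      Stmt.Admissible (g 0) ∧ PreSol p T g ∧
      ((∀ t ∈ Set.Ico 0 T, ∀ x v, 0 ≤ g t x v) → Stmt.Implosion T g 0)

/-- The kernel satisfies the two-sided bounds. -/
def KerStmt : Prop := Stmt.NonCutoff dd (199 / 100) (1 / 200) (Stmt.Bk dd)

/-- Assembly of the last modules. -/
theorem main_of (h0 : KerStmt) (h1 : M1M) (h2 : BgStmt) (h3 : PicardStmt) (h4 : L1Stmt)
    (h5 : FinalStmt) : Stmt.MainM dd := by
  obtain ⟨B, hB⟩ := h2 h1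
  obtain ⟨p, h4⟩ := h4
  obtain ⟨ε1, p1, hε1, h5⟩ := h5 p
  obtain ⟨A, s0, f, hA, hs0, hf⟩ := h3 B hB p1 ε1 hε1
  obtain ⟨T, g, hT, a1, a2, a3⟩ := h5 B hB A s0 f hA hs0 hf
  obtain ⟨b1, b2⟩ := h4 T g a2 a1
  exact ⟨199 / 100, 1 / 200, Stmt.Bk dd, by norm_num, by norm_num, by norm_num, by norm_num, h0,
    T, g, 0, hT, a1, b1, b2, a3 b1.nonneg⟩

end Pool.Agent.BoltzM
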