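import Pool.Agent.BoltzM.Calc.VSob
import Pool.Agent.BoltzM.Calc.Class
import Pool.Agent.BoltzM.Coll.Defs
import Pool.Agent.BoltzM.Prof.Defs

/-!
Shared definitions of the Boltzmann project, part 1: hydrodynamic projection, collision interface,
transport operator, weighted energies, and the statements of module M4.
-/

set_option autoImplicit false

open MeasureTheory Pool.Agent.BoltzM.BoltzC Finset
open Pool.Agent.MP_187b32_an.PM (NF QF)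

noncomputable section

namespace Pool.Agent.BoltzM

variable [Dim]

/-! ### The hydrodynamic projection -/

/-- Orthogonal basis of the collision invariants: `sqM`, `V_i sqM`, `(|V|^2 - d) sqM`. -/
def hb : Hx → SV
  | none => sqMS
  | some none => ∑ i, ap i (ap i sqMS)
  | some (some i) => ap i sqMS

/-- The normalised basis. -/
def eH (a : Hx) : SV := (√(ip (hb a) (hb a)))⁻¹ • hb a

/-- Pairing with a fixed Schwartz function, as a continuous functional. -/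
def ipL (e : SV) : SV →L[ℝ] ℝ :=
  ⟨ip e, continuous_ip.comp (continuous_const.prodMk continuous_id)⟩

@[simp] lemma ipL_apply (e f : SV) : ipL e f = ip e f := rfl

/-- Orthogonal projection onto the collision invariants. -/
def PP : SV →L[ℝ] SV := ∑ a, (ipL (eH a)).smulRight (eH a)

lemma PP_apply (f : SV) : PP f = ∑ a, ip (eH a) f • eH a := by
  simp [PP]

/-! ### Multipliers -/

/-- Multiplication by `(1 + |V|^2)^q`. -/
def Jw (q : ℝ) : SV →L[ℝ] SV := SchwartzMap.smulLeftCLM ℝ fun v : E3 => (1 + ‖v‖ ^ 2) ^ q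

/-- Multiplication by `sqM`. -/
def Sq : SV →L[ℝ] SV := SchwartzMap.smulLeftCLM ℝ sqM

@[simp] lemma Jw_apply (q : ℝ) (f : SV) (v : E3) : Jw q f v = (1 + ‖v‖ ^ 2) ^ q * f v := by
  simp [Jw, SchwartzMap.smulLeftCLM_apply_apply
    (Function.hasTemperateGrowth_one_add_norm_sq_rpow E3 q)]

@[simp] lemma Sq_apply (f : SV) (v : E3) : Sq f v = sqM v * f v := by
  have h : (sqM : E3 → ℝ).HasTemperateGrowth := by
    have := sqMS.hasTemperateGrowth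
    rwa [show (sqMS : E3 → ℝ) = sqM from funext sqMS_apply] at this
  simp [Sq, SchwartzMap.smulLeftCLM_apply_apply h]

/-- The damping `(1 - PP) (1 + |V|^2)^4 (1 - PP)`. -/
def Ds : SV →L[ℝ] SV :=
  (ContinuousLinearMap.id ℝ SV - PP).comp ((Jw 4).comp (ContinuousLinearMap.id ℝ SV - PP))

lemma Ds_apply (f : SV) : Ds f = Jw 4 (f - PP f) - PP (Jw 4 (f - PP f)) := rfl

/-! ### Collision interface -/

/-- The symmetrised collision operator `G f g = Γ(f,g) + Γ(g,f)` on Schwartz space, the linearised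
operator `L`, and all the facts used by the modules M3, M4, M6. -/
structure CollOp where
  G : SV →ₗ[ℝ] SV →ₗ[ℝ] SV
  G1 : SV →ₗ[ℝ] SV →ₗ[ℝ] SV
  L : SV →L[ℝ] SV
  p : ℕ
  cont : Continuous fun q : SV × SV => G q.1 q.2
  symm : ∀ f g, G f g = G g f
  leib : ∀ j f g, ap j (G f g) = G (ap j f) g + G f (ap j g)
  hyd : ∀ f g, PP (G f g) = 0
  L_eq : ∀ f, L f = -G sqMS f
  L_symm : ∀ f g, ip (L f) g = ip f (L g)
  gap : ∃ lam : ℝ, 0 < lam ∧ ∀ f, lam * ip (f - PP f) (f - PP f) ≤ ip (L f) f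
  tri : ∃ C : ℝ, 0 < C ∧ ∀ g h f,
    |ip (G g h) f| ≤ C * √(nA p h) * √(ip (L g) g + ip g g) * √(ip (L f) f)
  wgt : ∃ C : ℝ, 0 < C ∧ ∀ f : SV, ∫ v, (1 + ‖v‖) ^ 2 * f v ^ 2 ≤ C * (ip (L f) f + ip f f)
  G_eq : ∀ f g, G f g = G1 f g + G1 g f
  cont1 : Continuous fun q : SV × SV => G1 q.1 q.2
  leib1 : ∀ j f g, ap j (G1 f g) = G1 (ap j f) g + G1 f (ap j g)
  tri1 : ∃ C : ℝ, 0 < C ∧ ∀ a f g,
    |ip (G1 a f) g| ≤ C * √(nA p a) * √(ip (L f) f + ip f f) * √(ip (L g) g + ip g g)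
  bdd : ∀ q, ∃ (d : ℕ) (C : ℝ), 0 < C ∧ ∀ f g, nA q (G f g) ≤ C * nA d f * nA d g
  inv : ∀ S ∈ HP 3, PP S = 0 → ∃ Φ, L Φ = S

/-- The interface is realised by the concrete operator. -/
def CollOp.Real (Q : CollOp) : Prop :=
  (∀ (f g : SV) (v : E3), Q.G1 f g v = Coll.Gam f g v) ∧ ∀ f : SV, ip (Q.L f) f = Coll.Dis f

/-- M2, final form. -/
def CollStmt : Prop := ∃ Q : CollOp, Q.Real

/-- Squared dissipation norm. -/
def CollOp.dq (Q : CollOp) (f : SV) : ℝ := ip (Q.L f) f + ip f f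

/-! ### Transport operator -/

/-- Coefficients of the transport operator at one time. -/
structure Fld where
  u : Ix → E3 → ℝ
  c : E3 → ℝ
  b0 : Ix → E3 → ℝ
  b1 : Ix → Ix → E3 → ℝ
  b2 : Ix → E3 → ℝ

/-- The velocity part `- (b0_j + b1_ij V_i + b2_i V_i V_j) a+_j`. -/
def Fld.vel (F : Fld) (x : E3) (f : SV) : SV :=
  -(∑ j, F.b0 j x • ap j f + ∑ i, ∑ j, F.b1 i j x • mulV i (ap j f)
    + ∑ i, ∑ j, F.b2 i x • mulV i (mulV j (ap j f)))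

/-- The transport operator `(u + c V) . grad_x - b_j(V) a+_j`. -/
def Fld.tr (F : Fld) (G : E3 → SV) (x : E3) : SV :=
  ∑ i, (F.u i x • dX i G x + F.c x • mulV i (dX i G x)) + F.vel x (G x)

/-- The source `b_j(V) V_j sqM`. -/
def Fld.src (F : Fld) (x : E3) : SV := -F.vel x sqMS

/-- Smooth periodic coefficients. -/
structure Fld.Reg (F : Fld) : Prop where
  u : ∀ i, Sm (F.u i) ∧ Per (F.u i)
  c : Sm F.c ∧ Per F.c
  b0 : ∀ j, Sm (F.b0 j) ∧ Per (F.b0 j)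
  b1 : ∀ i j, Sm (F.b1 i j) ∧ Per (F.b1 i j)
  b2 : ∀ i, Sm (F.b2 i) ∧ Per (F.b2 i)

/-- Coefficients depending continuously on time. -/
structure FldC (F : ℝ → Fld) : Prop where
  u : ∀ i, SmC fun s => (F s).u i
  c : SmC fun s => (F s).c
  b0 : ∀ j, SmC fun s => (F s).b0 j
  b1 : ∀ i j, SmC fun s => (F s).b1 i j
  b2 : ∀ i, SmC fun s => (F s).b2 i
  reg : ∀ s, (F s).Reg

/-- `a` is a symbol of size `m` at the length scale `σ`, with constants `K`, from order `n0` on. -/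
def SymBd (K : ℕ → ℝ) (n0 : ℕ) (σ m a : E3 → ℝ) : Prop :=
  ∀ w : List Ix, n0 ≤ w.length → ∀ x, σ x ^ w.length * |dXw w a x| ≤ K w.length * m x

/-- Symbol bounds of the coefficients (no bound on `u` and on its gradient is required). -/
structure Fld.Bd (F : Fld) (K : ℕ → ℝ) (σ μ : E3 → ℝ) : Prop where
  u : ∀ i, SymBd K 2 σ (fun x => μ x * σ x) (F.u i)
  c : SymBd K 0 σ (fun x => μ x * σ x) F.c
  b0 : ∀ j, SymBd K 0 σ μ (F.b0 j)
  b1 : ∀ i j, SymBd K 0 σ μ (F.b1 i j)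
  b2 : ∀ i, SymBd K 0 σ μ (F.b2 i)

/-- A positive smooth periodic weight that varies slowly at the scale `σ`. -/
structure Slow (K : ℝ) (σ a : E3 → ℝ) : Prop where
  sm : Sm a
  per : Per a
  pos : ∀ x, 0 < a x
  bd : ∀ i x, σ x * |dX i a x| ≤ K * a x

/-- Hypotheses on the weight `ω`, the length scale `σ`, the rate `μ`, the time derivatives `ωt`, `σt`
and the gain `γ`; `rep` is the repulsivity. -/
structure WtBd (F : Fld) (K : ℕ → ℝ) (lam : ℝ) (ω σ μ ωt σt γ : E3 → ℝ) : Prop where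
  hω : Slow (K 1) σ ω
  hσ : Slow (K 1) σ σ
  hμ : Slow (K 1) σ μ
  dω : ∀ x, ωt x + ∑ i, dX i (fun y => F.u i y * ω y) x + γ x ≤ K 0 * μ x * ω x
  rep : ∀ (x : E3) (a : Ix → ℝ) (b : Ix → Ix → ℝ), lam * μ x * σ x * NF a b ≤
    QF (-σt x - ∑ i, F.u i x * dX i σ x) (fun p i => σ x * dX p (F.u i) x)
      (fun i => cq * (F.c x * dX i σ x)) (fun i => cq * (σ x * dX i F.c x)) a b

/-! ### Energies -/

/-- Sum over `j + m ≤ n` and over the words `u` of length `j`, with weight `θ^(j+m) σ^(2j)`. -/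
def lev (n : ℕ) (θ σ : ℝ) (φ : List Ix → ℕ → ℝ) : ℝ :=
  ∑ j ∈ range (n + 1), ∑ m ∈ range (n + 1 - j), θ ^ (j + m) * σ ^ (2 * j) * ∑ u ∈ words j, φ u m

/-- Energy density (bilinear). -/
def bb (n : ℕ) (θ : ℝ) (σ : E3 → ℝ) (G H : E3 → SV) (x : E3) : ℝ :=
  lev n θ (σ x) fun u m => ip (dXw u G x) (RR m (dXw u H x))

/-- Dissipation density of the whole function. -/
def YY (Q : CollOp) (n : ℕ) (θ : ℝ) (σ : E3 → ℝ) (G : E3 → SV) (x : E3) : ℝ :=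
  lev n θ (σ x) fun u m => ∑ w ∈ words m, Q.dq (apW w (dXw u G x))

/-- Dissipation density of the non-hydrodynamic part. -/
def yy (Q : CollOp) (n : ℕ) (θ : ℝ) (σ : E3 → ℝ) (G : E3 → SV) (x : E3) : ℝ :=
  YY Q n θ σ (fun y => G y - PP (G y)) x

/-- Density of the damping. -/
def y8 (n : ℕ) (θ : ℝ) (σ : E3 → ℝ) (G : E3 → SV) (x : E3) : ℝ :=
  lev n θ (σ x) fun u m => ∑ w ∈ words m,
    ip (Jw 4 (apW w (dXw u G x - PP (dXw u G x)))) (apW w (dXw u G x - PP (dXw u G x)))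

/-- Energy on the torus (bilinear). -/
def En (n : ℕ) (θ : ℝ) (ω σ : E3 → ℝ) (G H : E3 → SV) : ℝ :=
  tint fun x => ω x * bb n θ σ G H x

/-- M4, kinetic energy inequality.  `E'` is the time derivative of the energy. -/
def M4Stmt : Prop :=
  ∀ (Q : CollOp) (K : ℕ → ℝ) (lam : ℝ), 0 < lam → ∃ n0 : ℕ, ∀ n, n0 ≤ n →
    ∃ θ A0 C c : ℝ, 0 < θ ∧ θ ≤ 1 ∧ 0 < C ∧ 0 < c ∧
      ∀ (ω ωt σ σt : ℝ → E3 → ℝ) (g g' : ℝ → E3 → SV), SmD ω ωt → SmD σ σt → SmD g g' →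
        (∀ s, Per (g s)) → ∃ E' : ℝ → ℝ, Continuous E' ∧
          (∀ s, HasDerivAt (fun t => En n θ (ω t) (σ t) (g t) (g t)) (E' s) s) ∧
          ∀ (s : ℝ) (F : Fld) (μ γ k : E3 → ℝ), F.Reg → F.Bd K (σ s) μ →
            WtBd F K lam (ω s) (σ s) μ (ωt s) (σt s) γ → Continuous γ →
            Sm k → Per k → SymBd K 0 (σ s) k k → SymBd K 0 (σ s) μ μ → (∀ x, A0 * μ x ≤ k x) →
            E' s + tint (fun x => γ x * bb n θ (σ s) (g s) (g s) x)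
                + c * tint (fun x => ω s x * k x * yy Q n θ (σ s) (g s) x)
              ≤ C * tint (fun x => μ x * ω s x * ip (PP (g s x)) (PP (g s x)))
                + 2 * En n θ (ω s) (σ s)
                    (fun x => g' s x + F.tr (g s) x + k x • Q.L (g s x) + μ x • Ds (g s x)) (g s)

/-- M4, hydrodynamic energy inequality (any `θ`). -/
def M4hStmt : Prop :=
  ∀ (K : ℕ → ℝ) (lam : ℝ), 0 < lam → ∃ n0 : ℕ, ∀ n, n0 ≤ n → ∀ θ : ℝ, 0 < θ → θ ≤ 1 →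
    ∃ C : ℝ, 0 < C ∧
      ∀ (ω ωt σ σt : ℝ → E3 → ℝ) (g g' : ℝ → E3 → SV), SmD ω ωt → SmD σ σt → SmD g g' →
        (∀ s, Per (g s)) → ∃ E' : ℝ → ℝ, Continuous E' ∧
          (∀ s, HasDerivAt (fun t => En n θ (ω t) (σ t) (g t) (g t)) (E' s) s) ∧
          ∀ (s : ℝ) (F : Fld) (μ γ : E3 → ℝ), F.Reg → F.Bd K (σ s) μ →
            WtBd F K lam (ω s) (σ s) μ (ωt s) (σt s) γ → Continuous γ →
            (∀ x, PP (g s x) = g s x) →
            E' s + tint (fun x => γ x * bb n θ (σ s) (g s) (g s) x)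
              ≤ C * tint (fun x => μ x * ω s x * ip (g s x) (g s x))
                + 2 * En n θ (ω s) (σ s) (fun x => g' s x + PP (F.tr (g s) x)) (g s)

/-- M4b, collision gain (pointwise). -/
def GainStmt : Prop :=
  ∀ (Q : CollOp) (K : ℕ → ℝ) (n : ℕ), ∃ θ0 c : ℝ, 0 < θ0 ∧ θ0 ≤ 1 ∧ 0 < c ∧
    ∀ θ, 0 < θ → θ ≤ θ0 → ∀ (σ k : E3 → ℝ) (G : E3 → SV), Sm k → Sm G → (∀ x, 0 < σ x) →
      (∀ x, 0 ≤ k x) → SymBd K 0 σ k k → ∀ x,
        c * k x * yy Q n θ σ G x ≤ bb n θ σ (fun y => k y • Q.L (G y)) G x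

/-- M4b, gain from the damping (pointwise). -/
def DampStmt : Prop :=
  ∀ (K : ℕ → ℝ) (n : ℕ), ∃ θ0 c : ℝ, 0 < θ0 ∧ θ0 ≤ 1 ∧ 0 < c ∧
    ∀ θ, 0 < θ → θ ≤ θ0 → ∀ (σ k : E3 → ℝ) (G : E3 → SV), Sm k → Sm G → (∀ x, 0 < σ x) →
      (∀ x, 0 ≤ k x) → SymBd K 0 σ k k → ∀ x,
        c * k x * y8 n θ σ G x ≤ bb n θ σ (fun y => k y • Ds (G y)) G x

/-- M4b, trilinear estimate (pointwise). -/
def GamStmt : Prop :=
  ∀ (Q : CollOp) (K : ℕ → ℝ) (n : ℕ) (θ : ℝ), 0 < θ → θ ≤ 1 → ∃ C : ℝ, 0 < C ∧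
    ∀ (σ k : E3 → ℝ) (G₁ G₂ H : E3 → SV), Sm k → Sm G₁ → Sm G₂ → Sm H → (∀ x, 0 < σ x) →
      (∀ x, 0 ≤ k x) → SymBd K 0 σ k k → ∀ x,
        |bb n θ σ (fun y => k y • Q.G (G₁ y) (G₂ y)) H x| ≤ C * k x *
          (√(bb (n / 2 + Q.p) 1 σ G₁ G₁ x) * √(YY Q n θ σ G₂ x)
            + √(bb (n / 2 + Q.p) 1 σ G₂ G₂ x) * √(YY Q n θ σ G₁ x)) * √(yy Q n θ σ H x)

/-- M4c, pointwise bound by the energy. -/
def SobStmt : Prop :=
  ∀ (K : ℝ) (N : ℕ) (θ : ℝ), 0 < θ → θ ≤ 1 → ∃ C : ℝ, 0 < C ∧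
    ∀ (ω σ : E3 → ℝ) (G : E3 → SV), Slow K σ ω → Slow K σ σ → (∀ x, σ x ≤ K) → Sm G → Per G →
      ∀ x, σ x ^ dd * ω x * bb N 1 σ G G x ≤ C * En (N + dd) θ ω σ G G

end Pool.Agent.BoltzM
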