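import Pool.Agent.BoltzM.Spec.Bg
import Pool.Agent.BoltzM.Coll.Nice

/-!
Shared definitions of the Boltzmann project, part 3: energies with polynomial weights for the fast
part `H` (the density is `sqM * H`), and the statements about them.
-/

set_option autoImplicit false

open MeasureTheory Pool.Agent.BoltzM.BoltzC Finset

noncomputable section

namespace Pool.Agent.BoltzM

variable [Dim]

/-! ### Weighted forms in the velocity -/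

/-- Multiplication by `sqM ^ 2 (1 + |V|^2)^q`. -/
def WQ (q : ℝ) : SV →L[ℝ] SV := Sq.comp ((Jw q).comp Sq)

/-- The weighted scalar product of `sqM f` and `sqM g`. -/
def ipW (q : ℝ) (f g : SV) : ℝ := ip f (WQ q g)

/-- The weighted analogue of `RR`. -/
def RW (q : ℝ) : ℕ → SV →L[ℝ] SV
  | 0 => WQ q
  | m + 1 => ∑ j, (am j).comp ((RW q m).comp (ap j))

/-- The weighted form at level `m`. -/
def NW (q : ℝ) (m : ℕ) (f g : SV) : ℝ := ip f (RW q m g)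

/-- All levels up to `m`, with the same weight. -/
def bW (q : ℝ) (m : ℕ) (f : SV) : ℝ := ∑ l ∈ range (m + 1), NW q l f f

/-- All levels up to `m`, with one more weight for each missing letter. -/
def SW (q : ℝ) (m : ℕ) (f : SV) : ℝ := ∑ l ∈ range (m + 1), NW (q + m - l) l f f

/-- The symmetric part of the transport form. -/
def NVW (q : ℝ) (m : ℕ) (i : Ix) (f g : SV) : ℝ :=
  ∑ w ∈ words m, ipW q (mulV i (apW w f)) (apW w g)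

/-- Weighted pointwise bound of `sqM f` and of its gradient. -/
def PW (p : ℕ) (K : ℝ) (f : SV) : Prop :=
  ∀ V : E3, (1 + ‖V‖) ^ p * |Sq f V| ≤ K ∧ (1 + ‖V‖) ^ p * ‖fderiv ℝ (Sq f) V‖ ≤ K

lemma ipW_eq (q : ℝ) (f g : SV) :
    ipW q f g = ∫ v, (1 + ‖v‖ ^ 2) ^ q * (sqM v * f v * (sqM v * g v)) := by
  simp only [ipW, WQ, ip_def, ContinuousLinearMap.comp_apply, Sq_apply, Jw_apply]
  congr 1; funext v; ring

lemma ipW_comm (q : ℝ) (f g : SV) : ipW q f g = ipW q g f := by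
  simp only [ipW_eq, mul_comm (sqM _ * f _)]

lemma ipW_nonneg (q : ℝ) (f : SV) : 0 ≤ ipW q f f := by
  rw [ipW_eq]
  exact integral_nonneg fun v => mul_nonneg (by positivity) (mul_self_nonneg _)

lemma integrable_ipW (q : ℝ) (f g : SV) :
    Integrable fun v : E3 => (1 + ‖v‖ ^ 2) ^ q * (sqM v * f v * (sqM v * g v)) := by
  refine (integrable_mul f (WQ q g)).congr (Filter.Eventually.of_forall fun v => ?_)
  simp only [WQ, ContinuousLinearMap.comp_apply, Sq_apply, Jw_apply]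
  ring

lemma ipW_mono {q q' : ℝ} (h : q ≤ q') (f : SV) : ipW q f f ≤ ipW q' f f := by
  rw [ipW_eq, ipW_eq]
  refine integral_mono (integrable_ipW q f f) (integrable_ipW q' f f) fun v => ?_
  exact mul_le_mul_of_nonneg_right
    (Real.rpow_le_rpow_of_exponent_le (le_add_of_nonneg_right (sq_nonneg _)) h) (mul_self_nonneg _)

lemma NW_eq (q : ℝ) (m : ℕ) (f g : SV) :
    NW q m f g = ∑ w ∈ words m, ipW q (apW w f) (apW w g) := by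
  unfold NW
  induction m generalizing f g with
  | zero => simp [words, RW, ipW]
  | succ m ih =>
    rw [show RW q (m + 1) g = ∑ j, am j (RW q m (ap j g)) by simp [RW], map_sum, sum_words_succ]
    refine sum_congr rfl fun j _ => ?_
    rw [← ip_ap, ih]
    simp only [apW_cons, apW_ap]

lemma NW_zero (q : ℝ) (f g : SV) : NW q 0 f g = ipW q f g := rfl

lemma NW_comm (q : ℝ) (m : ℕ) (f g : SV) : NW q m f g = NW q m g f := by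
  simp only [NW_eq, ipW_comm q (apW _ f)]

lemma NW_nonneg (q : ℝ) (m : ℕ) (f : SV) : 0 ≤ NW q m f f := by
  rw [NW_eq]; exact sum_nonneg fun _ _ => ipW_nonneg _ _

lemma NW_mono {q q' : ℝ} (h : q ≤ q') (m : ℕ) (f : SV) : NW q m f f ≤ NW q' m f f := by
  rw [NW_eq, NW_eq]; exact sum_le_sum fun _ _ => ipW_mono h _

lemma bW_nonneg (q : ℝ) (m : ℕ) (f : SV) : 0 ≤ bW q m f := sum_nonneg fun _ _ => NW_nonneg _ _ _

lemma bW_mono {q q' : ℝ} {m m' : ℕ} (h : q ≤ q') (hm : m ≤ m') (f : SV) : bW q m f ≤ bW q' m' f :=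
  (sum_le_sum fun _ _ => NW_mono h _ _).trans (sum_le_sum_of_subset_of_nonneg
    (range_subset_range.2 (by omega)) fun _ _ _ => NW_nonneg _ _ _)

lemma NW_le_bW (q : ℝ) {l m : ℕ} (h : l ≤ m) (f : SV) : NW q l f f ≤ bW q m f :=
  single_le_sum (f := fun l => NW q l f f) (fun _ _ => NW_nonneg _ _ _) (mem_range.2 (by omega))

lemma SW_le_bW (q : ℝ) (m : ℕ) (f : SV) : SW q m f ≤ bW (q + m) m f :=
  sum_le_sum fun l _ => NW_mono (by linarith [Nat.cast_nonneg (α := ℝ) l]) _ _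

lemma Jw_zero (f : SV) : Jw 0 f = f := by ext v; simp

lemma ipW_Jw (q r : ℝ) (f g : SV) : ipW q (Jw r f) g = ipW (q + r) f g := by
  simp only [ipW_eq, Jw_apply]
  congr 1; funext v
  rw [Real.rpow_add (by positivity)]
  ring

lemma SW_nonneg (q : ℝ) (m : ℕ) (f : SV) : 0 ≤ SW q m f := sum_nonneg fun _ _ => NW_nonneg _ _ _

/-- Velocity estimates for the weighted forms. -/
structure VHStmt : Prop where
  cs : ∀ (q a b : ℝ) (m : ℕ), 2 * q ≤ a + b → ∀ f g, |NW q m f g| ≤ √(NW a m f f) * √(NW b m g g)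
  nv : ∀ (q : ℝ) (m : ℕ) i f g,
    |NVW q m i f g| ≤ √(NW (q + 1 / 2) m f f) * √(NW (q + 1 / 2) m g g)
  comm : ∀ (q : ℝ) (m : ℕ), ∃ C : ℝ, 0 < C ∧ ∀ i f g,
    |NW q (m + 1) (mulV i f) g - NVW q (m + 1) i f g|
      ≤ C * √(NW (q - 1 / 2) m f f) * √(NW (q + 1 / 2) (m + 1) g g)
  mv : ∀ (q : ℝ) (m : ℕ), ∃ C : ℝ, 0 < C ∧ ∀ i f g,
    |NW q m (mulV i f) g| ≤ C * √(SW (q + 1 / 2) m f) * √(NW (q + 1 / 2) m g g)
  top : ∀ (q : ℝ) (m : ℕ), ∃ C : ℝ, 0 < C ∧ ∀ i j l f,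
    |NW q m (ap l f) f| ≤ C * SW (q + 1 / 2) m f ∧
    |NW q m (mulV i (ap l f)) f| ≤ C * SW (q + 1 / 2) m f ∧
    |NW q m (mulV i (mulV j (ap l f))) f| ≤ C * SW (q + 1 / 2) m f
  low : ∀ (q : ℝ) (m : ℕ), ∃ C : ℝ, 0 < C ∧ ∀ i j l f g,
    |NW q m (ap l f) g| ≤ C * √(SW (q + 3 / 2) (m + 1) f) * √(NW (q + 1 / 2) m g g) ∧
    |NW q m (mulV i (ap l f)) g| ≤ C * √(SW (q + 3 / 2) (m + 1) f) * √(NW (q + 1 / 2) m g g) ∧
    |NW q m (mulV i (mulV j (ap l f))) g|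
      ≤ C * √(SW (q + 3 / 2) (m + 1) f) * √(NW (q + 1 / 2) m g g)
  sqc : ∀ (q q' : ℝ) (m : ℕ), ∃ C : ℝ, 0 < C ∧ ∀ f g,
    |NW q m (Sq f) g - ∑ w ∈ words m, ipW q (Sq (apW w f)) (apW w g)|
      ≤ C * √(∑ l ∈ range m, NW q' l f f) * √(NW q m g g)
  sqb : ∀ (q q' : ℝ) (m : ℕ), ∃ C : ℝ, 0 < C ∧ ∀ f, NW q m (Sq f) (Sq f) ≤ C * bW q' m f
  sqA : ∀ (q : ℝ) (m : ℕ), ∃ C : ℝ, 0 < C ∧ ∀ f, nA m (Jw q (Sq f)) ≤ C * SW (2 * q) m f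
  jwc : ∀ (q : ℝ) (m : ℕ), ∃ C : ℝ, 0 < C ∧ ∀ f g, |NW q m (Jw 4 f) g - NW (q + 4) m f g|
    ≤ C * √(∑ l ∈ range m, NW (q + 4) l f f) * √(NW (q + 4) m g g)
  jwb : ∀ (q : ℝ) (m : ℕ), ∃ C : ℝ, 0 < C ∧ ∀ f, NW q m (Jw 4 f) (Jw 4 f) ≤ C * bW (q + 8) m f
  gauss : ∀ q : ℝ, ∃ C : ℝ, 0 < C ∧ ∀ m f, NW q m f f ≤ C * nA m f
  ds : ∀ (q : ℝ) (m : ℕ), ∃ C : ℝ, 0 < C ∧ ∀ f, NW q m (Ds f) (Ds f) ≤ C * nA m (f - PP f)
  sup : ∀ p : ℕ, ∃ C : ℝ, 0 < C ∧ ∀ f, PW p (C * √(bW (p + dd + 1) (dd + 1) f)) f ∧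
    Coll.Nice p (C * √(bW (p + dd + 1) (dd + 1) f)) fun v => sqM v * f v

/-! ### The collision operator in the weighted spaces -/

/-- The two bounds for the term in which the weight passes from one function to the other. -/
def trf (p : ℕ) (q : ℝ) (a f : SV) : ℝ :=
  min (√(ipW (q + 199 / 200) a a) * √(bW p p f)) (√(bW (q + p) p a) * √(ipW q f f))

/-- The dissipation norms `D q` and the estimates of the collision operator. -/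
structure HOp (Q : CollOp) where
  D : ℕ → SV → ℝ
  p : ℕ
  q0 : ℕ
  p_le : p ≤ q0
  cont : ∀ q, Continuous (D q)
  add : ∀ q f g, D q (f + g) ≤ 2 * D q f + 2 * D q g
  smul : ∀ q (c : ℝ) f, D q (c • f) = c ^ 2 * D q f
  low : ∀ (q : ℕ) f, ipW (q + 199 / 200) f f ≤ D q f
  mono : ∃ C : ℝ, 1 ≤ C ∧ ∀ q f, D q f ≤ C * D (q + 1) f
  le_dq : ∀ q, ∃ C : ℝ, 0 < C ∧ ∀ f, D q f ≤ C * Q.dq f
  coer : ∀ q, q0 ≤ q → ∃ c N : ℝ, 0 < c ∧ 0 ≤ N ∧ ∀ f, c * D q f ≤ ipW q (Q.L f + N • Sq f) f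
  t1d : ∀ q, q0 ≤ q → ∃ C : ℝ, 0 < C ∧ ∀ a f,
    |ipW q (Q.G1 a f) f| ≤ C * (√(bW p p a) * √(D q f) + trf p q a f) * √(D q f)
  t1 : ∀ q, q0 ≤ q → ∃ C : ℝ, 0 < C ∧ ∀ a f g,
    |ipW q (Q.G1 a f) g| ≤ C * (√(bW p p a) * √(D (q + 1) f) + trf p q a f) * √(D q g)
  t2 : ∀ q, q0 ≤ q → ∃ C : ℝ, 0 < C ∧ ∀ a f g,
    |ipW q (Q.G1 a f) g| ≤ C * (√(ipW (q + 199 / 200) a a) * √(bW (q + p) p f)) * √(D q g)

/-- The weighted theory of the concrete operator. -/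
def HStmt : Prop := ∀ Q : CollOp, Q.Real → Nonempty (HOp Q)

/-! ### Energies -/

/-- Energy density (bilinear); an `x`-derivative costs two weights, a creation operator one. -/
def bh (n : ℕ) (θ q : ℝ) (σ : E3 → ℝ) (G H : E3 → SV) (x : E3) : ℝ :=
  lev n θ (σ x) fun u m => NW (q - 2 * u.length - m) m (dXw u G x) (dXw u H x)

/-- Dissipation density. -/
def YH {Q : CollOp} (X : HOp Q) (n : ℕ) (θ : ℝ) (q : ℕ) (σ : E3 → ℝ) (G : E3 → SV) (x : E3) : ℝ :=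
  lev n θ (σ x) fun u m => ∑ w ∈ words m, X.D (q - (2 * u.length + m)) (apW w (dXw u G x))

/-- The low norm. -/
def loH (n : ℕ) (q : ℝ) (σ : E3 → ℝ) (G : E3 → SV) (x : E3) : ℝ :=
  bh (n - dd) 1 (q - 2 * dd) σ G G x

/-- Energy on the torus (bilinear). -/
def EnH (n : ℕ) (θ q : ℝ) (ω σ : E3 → ℝ) (G H : E3 → SV) : ℝ :=
  tint fun x => ω x * bh n θ q σ G H x

/-- The part of the time derivative of the energy density that comes from the weights. -/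
def etH (n : ℕ) (θ q : ℝ) (ω σ ωt σt : E3 → ℝ) (G : E3 → SV) (x : E3) : ℝ :=
  ωt x * bh n θ q σ G G x + ω x * ∑ j ∈ range (n + 1), ∑ m ∈ range (n + 1 - j),
    θ ^ (j + m) * (2 * j * σ x ^ (2 * j - 1) * σt x) *
      ∑ u ∈ words j, NW (q - 2 * u.length - m) m (dXw u G x) (dXw u G x)

/-- Time derivative of the energy. -/
def EtHStmt : Prop :=
  ∀ (n : ℕ) (θ q : ℝ) (ω ωt σ σt : ℝ → E3 → ℝ) (g g' : ℝ → E3 → SV), SmD ω ωt → SmD σ σt →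
    SmD g g' →
    Continuous (fun s => tint (etH n θ q (ω s) (σ s) (ωt s) (σt s) (g s))
      + 2 * EnH n θ q (ω s) (σ s) (g' s) (g s)) ∧
    ∀ s, HasDerivAt (fun t => EnH n θ q (ω t) (σ t) (g t) (g t))
      (tint (etH n θ q (ω s) (σ s) (ωt s) (σt s) (g s))
        + 2 * EnH n θ q (ω s) (σ s) (g' s) (g s)) s

/-- The transport inequality; the loss is half a weight. -/
def TrHStmt : Prop :=
  ∀ (K : ℕ → ℝ) (n : ℕ) (θ q : ℝ), 0 < θ → θ ≤ 1 → ∃ C : ℝ, 0 < C ∧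
    ∀ (F : Fld) (lam : ℝ) (ω σ μ ωt σt γ : E3 → ℝ) (G : E3 → SV), 0 ≤ lam → F.Reg → F.Bd K σ μ →
      WtBd F K lam ω σ μ ωt σt γ → Continuous ωt → Continuous σt → Continuous γ → Sm G → Per G →
      tint (etH n θ q ω σ ωt σt G) + tint (fun x => γ x * bh n θ q σ G G x)
        ≤ 2 * EnH n θ q ω σ (F.tr G) G
          + C * tint fun x => μ x * ω x * bh n θ (q + 1 / 2) σ G G x

/-- Collision gain (pointwise). -/
def GainHStmt : Prop :=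
  ∀ (Q : CollOp) (X : HOp Q) (K : ℕ → ℝ) (n q : ℕ), 2 * n + X.q0 ≤ q → ∃ N0 : ℝ, ∀ N, N0 ≤ N →
    ∃ θ0 c : ℝ, 0 < θ0 ∧ θ0 ≤ 1 ∧ 0 < c ∧ ∀ θ, 0 < θ → θ ≤ θ0 →
      ∀ (σ k : E3 → ℝ) (G : E3 → SV), Sm k → Sm G → (∀ x, 0 < σ x) → (∀ x, 0 ≤ k x) →
        SymBd K 0 σ k k → ∀ x, c * k x * YH X n θ q σ G x
          ≤ bh n θ q σ (fun y => k y • (Q.L (G y) + N • Sq (G y))) G x

/-- The regularising term has a sign (pointwise). -/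
def JwHStmt : Prop :=
  ∀ (K : ℕ → ℝ) (n : ℕ) (q : ℝ), ∃ θ0 : ℝ, 0 < θ0 ∧ ∀ θ, 0 < θ → θ ≤ θ0 →
    ∀ (σ k : E3 → ℝ) (G : E3 → SV), Sm k → Sm G → (∀ x, 0 < σ x) → (∀ x, 0 ≤ k x) →
      SymBd K 0 σ k k → ∀ x, 0 ≤ bh n θ q σ (fun y => k y • Jw 4 (G y)) G x

/-- The energy inequality of the fast part. -/
def M4HStmt : Prop :=
  ∀ (Q : CollOp) (X : HOp Q) (K : ℕ → ℝ) (n q : ℕ), 2 * n + X.q0 ≤ q → ∃ N0 : ℝ, ∀ N, N0 ≤ N →
    ∃ θ0 : ℝ, 0 < θ0 ∧ θ0 ≤ 1 ∧ ∀ θ, 0 < θ → θ ≤ θ0 → ∃ A0 c : ℝ, 0 < A0 ∧ 0 < c ∧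
      ∀ (ω ωt σ σt : ℝ → E3 → ℝ) (g g' : ℝ → E3 → SV), SmD ω ωt → SmD σ σt → SmD g g' →
        (∀ s, Per (g s)) → ∃ E' : ℝ → ℝ, Continuous E' ∧
          (∀ s, HasDerivAt (fun t => EnH n θ q (ω t) (σ t) (g t) (g t)) (E' s) s) ∧
          ∀ (s lam η : ℝ) (F : Fld) (μ γ k : E3 → ℝ), 0 ≤ lam → 0 ≤ η → F.Reg → F.Bd K (σ s) μ →
            WtBd F K lam (ω s) (σ s) μ (ωt s) (σt s) γ → Continuous γ →
            Sm k → SymBd K 0 (σ s) k k → (∀ x, A0 * μ x ≤ k x) →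
            E' s + tint (fun x => γ x * bh n θ q (σ s) (g s) (g s) x)
                + c * tint (fun x => ω s x * k x * YH X n θ q (σ s) (g s) x)
              ≤ 2 * EnH n θ q (ω s) (σ s) (fun x => g' s x + F.tr (g s) x
                  + k x • (Q.L (g s x) + N • Sq (g s x) + η • Jw 4 (g s x))) (g s)

/-- Trilinear estimates (pointwise): on the diagonal, and with one spare weight. -/
def GamHStmt : Prop :=
  ∀ (Q : CollOp) (X : HOp Q) (K : ℕ → ℝ) (n q : ℕ) (θ : ℝ), 3 * dd + 3 * X.p ≤ n →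
    2 * n + X.q0 ≤ q → 0 < θ → θ ≤ 1 → ∃ C : ℝ, 0 < C ∧
    ∀ (σ k : E3 → ℝ) (a f g : E3 → SV), Sm k → Sm a → Sm f → Sm g → (∀ x, 0 < σ x) →
      (∀ x, 0 ≤ k x) → SymBd K 0 σ k k → ∀ x,
        |bh n θ q σ (fun y => k y • Q.G1 (a y) (f y)) f x| ≤ C * k x *
          (√(loH n q σ a x) * √(YH X n θ q σ f x) + √(YH X n θ q σ a x) * √(loH n q σ f x))
            * √(YH X n θ q σ f x) ∧
        |bh n θ q σ (fun y => k y • Q.G1 (a y) (f y)) g x| ≤ C * k x *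
          (√(loH n q σ a x) * √(YH X n θ (q + 1) σ f x) + √(YH X n θ q σ a x) * √(loH n q σ f x))
            * √(YH X n θ q σ g x)

/-- Pointwise bound by the energy. -/
def SobHStmt : Prop :=
  ∀ (K : ℝ) (n : ℕ) (θ q : ℝ), dd ≤ n → 0 < θ → θ ≤ 1 → ∃ C : ℝ, 0 < C ∧
    ∀ (ω σ : E3 → ℝ) (G : E3 → SV), Slow K σ ω → Slow K σ σ → (∀ x, σ x ≤ K) → Sm G → Per G →
      ∀ x, σ x ^ dd * ω x * loH n q σ G x ≤ C * EnH n θ q ω σ G G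

/-- The couplings between the two families of energies (pointwise). -/
structure CplStmt : Prop where
  sq : ∀ (K : ℕ → ℝ) (n : ℕ) (θ θ' q : ℝ), 0 ≤ θ → θ ≤ 1 → 0 < θ' → θ' ≤ 1 → 2 * n ≤ q →
    ∃ C : ℝ, 0 < C ∧ ∀ (σ k : E3 → ℝ) (G : E3 → SV), Sm k → Sm G → (∀ x, 0 < σ x) →
      (∀ x, 0 ≤ k x) → SymBd K 0 σ k k → ∀ x,
      bb n θ σ (fun y => k y • Sq (G y)) (fun y => k y • Sq (G y)) x
        ≤ C * k x ^ 2 * bh n θ' q σ G G x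
  ds : ∀ (Q : CollOp) (K : ℕ → ℝ) (n : ℕ) (θ θ' q : ℝ), 0 < θ → θ ≤ 1 → 0 ≤ θ' → θ' ≤ 1 →
    ∃ C : ℝ, 0 < C ∧ ∀ (σ k : E3 → ℝ) (G : E3 → SV), Sm k → Sm G → (∀ x, 0 < σ x) →
      (∀ x, 0 ≤ k x) → SymBd K 0 σ k k → ∀ x,
      bh n θ' q σ (fun y => k y • Ds (G y)) (fun y => k y • Ds (G y)) x
        ≤ C * k x ^ 2 * yy Q n θ σ G x
  jw : ∀ (K : ℕ → ℝ) (n : ℕ) (θ q : ℝ), 0 < θ → θ ≤ 1 →
    ∃ C : ℝ, 0 < C ∧ ∀ (σ k : E3 → ℝ) (G : E3 → SV), Sm k → Sm G → (∀ x, 0 < σ x) →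
      (∀ x, 0 ≤ k x) → SymBd K 0 σ k k → ∀ x,
      bh n θ q σ (fun y => k y • Jw 4 (G y)) (fun y => k y • Jw 4 (G y)) x
        ≤ C * k x ^ 2 * bh n θ (q + 8) σ G G x
  yh : ∀ (Q : CollOp) (X : HOp Q) (n q : ℕ) (θ θ' : ℝ), 0 < θ → θ ≤ 1 → 0 ≤ θ' → θ' ≤ 1 →
    ∃ C : ℝ, 0 < C ∧ ∀ (σ : E3 → ℝ) (G : E3 → SV) (x : E3),
      YH X n θ' q σ G x ≤ C * YY Q n θ σ G x
  bhb : ∀ (n : ℕ) (θ θ' q : ℝ), 0 < θ → θ ≤ 1 → 0 ≤ θ' → θ' ≤ 1 →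
    ∃ C : ℝ, 0 < C ∧ ∀ (σ : E3 → ℝ) (G : E3 → SV) (x : E3),
      bh n θ' q σ G G x ≤ C * bb n θ σ G G x

/-- M3, solver for the fast part. -/
def M3pStmt : Prop :=
  ∀ Q : CollOp, Q.Real → ∃ (e0 : ℝ) (p : ℕ), 0 < e0 ∧
    ∀ (F : ℝ → Fld) (k : ℝ → E3 → ℝ) (N η s0 : ℝ) (a S : ℝ → E3 → SV),
      FldC F → SmC k → (∀ s, Per (k s)) → (∀ s x, 0 < k s x) → 0 < η →
      SmC a → (∀ s, Per (a s)) → SmC S → (∀ s, Per (S s)) →
      (∀ s, s0 ≤ s → ∀ x w, (1 + ‖w‖) ^ p * |sqM w * a s x w| ≤ e0) →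
      ∃ g g' : ℝ → E3 → SV, SmD g g' ∧ (∀ s, Per (g s)) ∧ (∀ s, Per (g' s)) ∧
        (∀ x, g s0 x = 0) ∧ ∀ s, s0 ≤ s → ∀ x, g' s x + (F s).tr (g s) x
          + k s x • (Q.L (g s x) + N • Sq (g s x) + η • Jw 4 (g s x))
          - k s x • Q.G1 (a s x) (g s x) = S s x

/-! ### The iteration and the limit -/

/-- A sequence `h j` of smooth periodic approximate solutions; `g j` and `g' j` enter the quadratic
term and `e j` is the error. -/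
structure Iter (Q : CollOp) (F : ℝ → Fld) (k : ℝ → E3 → ℝ) (s0 ε : ℝ) (p : ℕ)
    (h h' g g' e : ℕ → ℝ → E3 → SV) : Prop where
  smd : ∀ j, SmD (h j) (h' j)
  per : ∀ j s, Per (h j s)
  per' : ∀ j s, Per (h' j s)
  eqn : ∀ j s, s0 ≤ s → ∀ x, h' j s x + (F s).tr (h j s) x + k s x • Q.L (h j s x)
    = (F s).src x + k s x • Q.G1 (g j s x) (g' j s x) + e j s x
  small : ∀ j s, s0 ≤ s → ∀ x, PW p ε (h j s x)
  cauchy : ∀ s1 η : ℝ, 0 < η → ∃ J, ∀ j, J ≤ j → ∀ l, J ≤ l → ∀ s ∈ Set.Icc s0 s1, ∀ x,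
    PW p η (h j s x - h l s x) ∧ (∀ i, PW p η (dX i (h j s) x - dX i (h l s) x)) ∧
      PW p η (g j s x - h j s x) ∧ PW p η (g' j s x - h j s x) ∧ PW p η (e j s x)
  init : ∃ (m : ℕ) (Ψ : Fin m → E3 → SV), (∀ i, Sm (Ψ i)) ∧
    ∀ j, ∃ α : Fin m → ℝ, ∀ x, h j s0 x = ∑ i, α i • Ψ i x
  init_small : ∀ j x V, |h j s0 x V| ≤ 1 / 2 * sqM V

/-- M6c-1: the iteration. -/
def IterStmt : Prop :=
  ∀ Q : CollOp, Q.Real → ∀ B : BgD, B.Ok → ∀ (p : ℕ) (ε : ℝ), 0 < ε →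
    ∃ (A s0 : ℝ) (h h' g g' e : ℕ → ℝ → E3 → SV), 0 < A ∧ 0 ≤ s0 ∧
      Iter Q B.fld (fun s x => A * B.k1 s x) s0 ε p h h' g g' e

/-- M6c-2: the limit. -/
def LimitStmt : Prop :=
  ∀ Q : CollOp, Q.Real → ∀ (p : ℕ) (ε : ℝ), 0 < ε →
    ∃ (p' : ℕ) (ε' : ℝ), 0 < ε' ∧ ∀ (F : ℝ → Fld) (k : ℝ → E3 → ℝ) (s0 : ℝ)
      (h h' g g' e : ℕ → ℝ → E3 → SV), FldC F → SmC k → (∀ s, Per (k s)) →
      Iter Q F k s0 ε' p' h h' g g' e → ∃ f : ℝ → E3 → E3 → ℝ, Lim F k s0 ε p f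

theorem picard_of (hc : CollStmt) (h1 : IterStmt) (h2 : LimitStmt) : PicardStmt := by
  obtain ⟨Q, hQ⟩ := hc
  intro B hB p ε hε
  obtain ⟨N, ε', hε', h2⟩ := h2 Q hQ p ε hε
  obtain ⟨A, s0, h, h', g, g', e, hA, hs0, hI⟩ := h1 Q hQ B hB N ε' hε'
  obtain ⟨f, hf⟩ := h2 B.fld _ s0 h h' g g' e hB.fldC (hB.sm_k1.const_smul A)
    (fun s i x => by simp only [BgD.k1, hB.per_C s i x]) hI
  exact ⟨A, s0, f, hA, hs0, hf⟩

end Pool.Agent.BoltzM
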